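import Pool.Agent.LibBip42.Lift

namespace Pool.Agent.Results.MP_b547dd_co.SideRespectingMinors

open Pool.Agent.LibBip42

/-- Let `G` and `H` be finite bipartite graphs with bipartitions `c` and `d`, and let `H` be
3-connected. If `H` is a side-respecting minor of `G`, then `H` is a bipartite minor of `G`. -/
theorem result (V W : Type) [Finite V] [Finite W] (G : SimpleGraph V) (H : SimpleGraph W)
    (c : V → Bool) (d : W → Bool) (hc : IsBipartition G c) (hd : IsBipartition H d)
    (hH : KConnected 3 H) (hmin : SideMinor H d G c) : BipartiteMinor H G :=
  main hH hd _ V rfl _ G c rfl hc hmin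

end Pool.Agent.Results.MP_b547dd_co.SideRespectingMinors
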