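import Pool.Agent.LibBip42.Lift

namespace Pool.Agent.Results.MP_b547dd_co.WellQuasiOrdered

open Pool.Agent.LibBip42

/-- The directed graph `D` on `W` is a minor of the directed graph `E` on `V`: there are disjoint
branch sets `{v | f v = some h}`, `h : W`, which are connected in the underlying undirected graph
of `E`, and every directed edge `g → h` of `D` is realised by a directed edge of `E` from the
branch set of `g` to the branch set of `h`. -/
def DigraphMinor {W V : Type} (D : W → W → Prop) (E : V → V → Prop) : Prop :=
  ∃ f : V → Option W,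
    (∀ h, ((SimpleGraph.fromRel E).induce {v | f v = some h}).Connected) ∧
    ∀ g h, D g h → ∃ x y, f x = some g ∧ f y = some h ∧ E x y

/-- The graph minor theorem for directed graphs (Robertson and Seymour, Graph Minors XX): in every
infinite sequence of finite loopless directed graphs some member is a minor of a later one. -/
def DirectedGraphMinorTheorem : Prop :=
  ∀ (n : ℕ → ℕ) (D : ∀ i, Fin (n i) → Fin (n i) → Prop), (∀ i v, ¬ D i v v) →
    ∃ i j, i < j ∧ DigraphMinor (D i) (D j)

/-- The directed graph minor theorem implies that for every `k ≥ 3` the `k`-connected bipartite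
graphs are well-quasi-ordered by the bipartite minor relation. -/
theorem result (RS : DirectedGraphMinorTheorem) (k : ℕ) (hk : 3 ≤ k) (n : ℕ → ℕ)
    (G : ∀ i, SimpleGraph (Fin (n i))) (hG : ∀ i, KConnected k (G i))
    (hbip : ∀ i, ∃ c : Fin (n i) → Bool, IsBipartition (G i) c) :
    ∃ i j, i < j ∧ BipartiteMinor (G i) (G j) := by
  choose c hc using hbip
  obtain ⟨i, j, hij, f, hf1, hf2⟩ := RS n (fun i x y => c i x = true ∧ (G i).Adj x y)
    (fun i v h => (G i).loopless.irrefl v h.2)
  refine ⟨i, j, hij, ?_⟩
  have hH : KConnected 3 (G i) := fun U hU => hG i U (by omega)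
  have hE : SimpleGraph.fromRel (fun x y => c j x = true ∧ (G j).Adj x y) = G j := by
    ext x y
    rw [SimpleGraph.fromRel_adj]
    constructor
    · rintro ⟨-, ⟨-, h⟩ | ⟨-, h⟩⟩
      · exact h
      · exact h.symm
    · intro h
      refine ⟨h.ne, ?_⟩
      cases hx : c j x with
      | true => exact Or.inl ⟨rfl, h⟩
      | false =>
        right
        refine ⟨?_, h.symm⟩
        have := hc j x y h
        rw [hx] at this
        cases hy : c j y with
        | true => rfl
        | false => exact absurd hy.symm this
  refine main hH (hc i) _ (Fin (n j)) rfl _ (G j) (c j) rfl (hc j) ⟨f, ?_, ?_⟩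
  · intro h
    have := hf1 h
    rw [hE] at this
    exact this
  · have key : ∀ g h, (G i).Adj g h → c i g = true → ∃ x y, f x = some g ∧ f y = some h ∧
        c j x = c i g ∧ c j y = c i h ∧ (G j).Adj x y := by
      intro g h hgh hg
      obtain ⟨x, y, hx, hy, hcx, hxy⟩ := hf2 g h ⟨hg, hgh⟩
      refine ⟨x, y, hx, hy, hcx.trans hg.symm, ?_, hxy⟩
      have h1 := hc j x y hxy
      have h2 := hc i g h hgh
      rw [hcx] at h1
      rw [hg] at h2
      cases e1 : c j y <;> cases e2 : c i h <;> simp_all
    intro g h hgh
    cases hg : c i g with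
    | true =>
      obtain ⟨x, y, h1, h2, h3, h4, h5⟩ := key g h hgh hg
      exact ⟨x, y, h1, h2, h3.trans hg, h4, h5⟩
    | false =>
      have hh : c i h = true := by
        have := hc i g h hgh
        rw [hg] at this
        cases e : c i h with
        | true => rfl
        | false => exact absurd e.symm this
      obtain ⟨x, y, h1, h2, h3, h4, h5⟩ := key h g hgh.symm hh
      exact ⟨y, x, h2, h1, h4.trans hg, h3, h5.symm⟩

end Pool.Agent.Results.MP_b547dd_co.WellQuasiOrdered
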